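import Pool.Agent.H867.FT.Gen5
import Pool.Agent.H707.FT867PSG

/-! # INJ: analytic independence gives injectivity

The leading form of a power series in the kernel, with its coefficients mapped to `S`, contradicts the analytic
independence of the images of the variables. -/

set_option autoImplicit false

namespace Pool.Agent.H870.FT867INJ

open MvPowerSeries Pool.Agent.H867.FT

theorem inj : Pool.Agent.H867.FT.S_INJ := by
  classical
  intro k S _ _ _ m φ hX hA
  rw [injective_iff_map_eq_zero]
  intro F hF
  by_contra hne
  have hord := ne_zero_iff_order_finite.mp hne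
  obtain ⟨n₀, hn₀, hdeg⟩ := exists_coeff_ne_zero_and_order hord
  set D : ℕ := n₀.degree with hD
  -- the leading form
  set Q : MvPolynomial (Fin m) k := truncTotal (D + 1) F with hQ
  set σ : k →+* S := φ.comp MvPowerSeries.C with hσ
  set G : MvPolynomial (Fin m) S := Q.map σ with hG
  have hQc : ∀ n, Q.coeff n = if n.degree = D then F.coeff n else 0 := by
    intro n
    rw [hQ, coeff_truncTotal_eq_ite]
    rcases lt_trichotomy n.degree D with h | h | h
    · rw [if_pos (by omega), if_neg (by omega)]
      apply coeff_of_lt_order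
      rw [← hdeg]
      exact_mod_cast h
    · rw [if_pos (by omega), if_pos h]
    · rw [if_neg (by omega), if_neg (by omega)]
  have hGc : ∀ n, G.coeff n = σ (Q.coeff n) := fun n => MvPolynomial.coeff_map _ _ _
  have hhom : G.IsHomogeneous D := by
    intro n hn
    rw [hGc, hQc] at hn
    have h1 : n.degree = D := by
      by_contra h
      rw [if_neg h, map_zero] at hn
      exact hn rfl
    rw [← h1, Finsupp.degree_eq_weight_one]
    rfl
  -- the value of the form
  have hval : MvPolynomial.eval (fun i : Fin m => φ (MvPowerSeries.X i)) G = φ (Q : MvPowerSeries (Fin m) k) := by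
    rw [hG, MvPolynomial.eval_map]
    have h1 : (φ.comp MvPolynomial.coeToMvPowerSeries.ringHom : MvPolynomial (Fin m) k →+* S) =
        MvPolynomial.eval₂Hom σ (fun i : Fin m => φ (MvPowerSeries.X i)) := by
      apply MvPolynomial.ringHom_ext
      · intro c
        simp [hσ]
      · intro i
        simp
    have h2 := congrArg (fun f : MvPolynomial (Fin m) k →+* S => f Q) h1
    simp only [RingHom.comp_apply, MvPolynomial.coeToMvPowerSeries.ringHom_apply,
      MvPolynomial.coe_eval₂Hom] at h2
    exact h2.symm
  have hrest : (Q : MvPowerSeries (Fin m) k) - F ∈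
      IsLocalRing.maximalIdeal (MvPowerSeries (Fin m) k) ^ (D + 1) := by
    apply Pool.Agent.H707.FT867.mem_pow
    apply nat_le_order
    intro n hn
    rw [map_sub, MvPolynomial.coeff_coe, hQ, coeff_truncTotal _ hn, sub_self]
  set J : Ideal S := Ideal.span (Set.range fun i : Fin m => φ (MvPowerSeries.X i)) with hJ
  have hmax : (IsLocalRing.maximalIdeal (MvPowerSeries (Fin m) k)).map φ ≤ J := by
    rw [(Pool.Agent.H707.FT867.psg k m).1, Ideal.map_span, ← Set.range_comp]
    exact le_rfl
  have hJm : J ≤ IsLocalRing.maximalIdeal S := by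
    rw [hJ, Ideal.span_le]
    rintro _ ⟨i, rfl⟩
    exact hX i
  have hmem : MvPolynomial.eval (fun i : Fin m => φ (MvPowerSeries.X i)) G ∈
      IsLocalRing.maximalIdeal S * J ^ D := by
    have h1 : φ (Q : MvPowerSeries (Fin m) k) = φ ((Q : MvPowerSeries (Fin m) k) - F) := by
      rw [map_sub, hF, sub_zero]
    rw [hval, h1]
    have h2 : φ ((Q : MvPowerSeries (Fin m) k) - F) ∈ J ^ (D + 1) := by
      have h3 := Ideal.mem_map_of_mem φ hrest
      rw [Ideal.map_pow] at h3
      exact Ideal.pow_right_mono hmax _ h3
    rw [pow_succ'] at h2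
    exact Ideal.mul_mono_left hJm h2
  have h3 := hA D G hhom hmem n₀
  rw [hGc, hQc, if_pos rfl] at h3
  have h4 : IsUnit (σ (F.coeff n₀)) := (isUnit_iff_ne_zero.mpr hn₀).map σ
  exact ((IsLocalRing.mem_maximalIdeal _).mp h3) h4

end Pool.Agent.H870.FT867INJ

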