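import Mathlib
import Pool.Agent.H979.GW.StmA

/-! Task SH of project GW (helper979), by helper870: the law of the subtrees. -/

set_option autoImplicit false

open MeasureTheory ProbabilityTheory Filter Topology Set
open scoped ENNReal NNReal
open Pool.Agent.H979.GW

namespace Pool.Agent.H870

theorem ty_append {Q : Type} (a : Q) (u v : Vx Q) : ty a (u ++ v) = ty (ty a v) u := by
  cases u with
  | nil => rfl
  | cons c u => rfl

theorem sh_meas {Q : Type} (v : Vx Q) : Measurable (sh (Q := Q) v) :=
  measurable_pi_lambda _ fun u => measurable_pi_apply (u ++ v)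

theorem gw_sh {Q : Type} [Fintype Q] [DecidableEq Q] (q : Q → Measure (Q → ℕ))
    [∀ a, IsProbabilityMeasure (q a)] : S_SH q := by
  intro a v
  refine ⟨sh_meas v, ?_⟩
  unfold law
  refine Measure.eq_infinitePi _ fun s t ht => ?_
  let f : Vx Q ↪ Vx Q := ⟨fun u => u ++ v, fun u w h => List.append_cancel_right h⟩
  let t' : Vx Q → Set (Q → ℕ) := fun w => t (w.take (w.length - v.length))
  have ht' : ∀ u, t' (f u) = t u := by
    intro u
    show t ((u ++ v).take ((u ++ v).length - v.length)) = t u
    rw [List.length_append, Nat.add_sub_cancel, List.take_left]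
  have hpre : (sh (Q := Q) v) ⁻¹' (Set.pi s t) = Set.pi (s.map f : Finset (Vx Q)) t' := by
    ext ω
    simp only [Set.mem_preimage, Set.mem_pi, Finset.mem_coe, Finset.mem_map]
    constructor
    · rintro h _ ⟨u, hu, rfl⟩
      rw [ht']
      exact h u hu
    · intro h u hu
      have := h (f u) ⟨u, hu, rfl⟩
      rw [ht'] at this
      exact this
  have hm : MeasurableSet (Set.pi (s : Set (Vx Q)) t) :=
    MeasurableSet.pi s.countable_toSet fun i _ => ht i
  rw [Measure.map_apply (sh_meas v) hm, hpre, Measure.infinitePi_pi, Finset.prod_map]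
  · refine Finset.prod_congr rfl fun u _ => ?_
    rw [ht']
    show q (ty a (u ++ v)) (t u) = _
    rw [ty_append]
  · exact fun w _ => ht _

end Pool.Agent.H870
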